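import Mathlib
import Pool.Agent.Work.MP_ce2d68_du.Interface

set_option autoImplicit false

open Polynomial Filter Topology
open scoped ComplexConjugate

namespace Pool.Agent.Work.MP_ce2d68_du.h40

open Pool.Agent.Work.MP_ce2d68_st

lemma ev_eq_aeval (P : ℤ[X]) (z : ℂ) : ev P z = aeval z P := by
  unfold ev cp
  rw [eval_map, aeval_def]
  rfl

lemma ev_mul (P Q : ℤ[X]) (z : ℂ) : ev (P * Q) z = ev P z * ev Q z := by
  simp [ev_eq_aeval]

lemma rv_eq_aeval (f : ℝ[X]) (z : ℂ) : rv f z = aeval z f := by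
  unfold rv
  rw [eval_map, aeval_def]

lemma rv_map (P : ℤ[X]) (z : ℂ) : rv (P.map (Int.castRingHom ℝ)) z = ev P z := by
  unfold rv ev cp
  rw [Polynomial.map_map]
  congr 2

theorem p_NCOV (hB : Stmt_NBAS) (hM : Stmt_NMINK) : Stmt_NCOV := by
  intro P hP
  obtain ⟨-, -, -, -, hroot, -⟩ := hB P hP
  obtain ⟨c1, hc1, hw⟩ := hM P hP
  have hd : 0 < P.natDegree := hP.2
  have hP0 : P ≠ 0 := hP.1.ne_zero
  set d := P.natDegree with hdd
  set B0 : ℝ := ∑ a ∈ rts P, ∑ k ∈ Finset.range d, ‖a‖ ^ k with hB0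
  have hB0n : 0 ≤ B0 := Finset.sum_nonneg fun a _ => Finset.sum_nonneg fun k _ => by positivity
  refine ⟨2 * c1 * B0 + 1, by positivity, ?_⟩
  intro L t ht hts f
  obtain ⟨w, hwd, hw⟩ := hw L t ht hts
  set PR : ℝ[X] := P.map (Int.castRingHom ℝ) with hPR
  set wR : ℝ[X] := w.map (Int.castRingHom ℝ) with hwR
  have hPR0 : PR ≠ 0 := by
    rw [hPR]
    exact (Polynomial.map_ne_zero_iff (RingHom.injective_int _)).mpr hP0
  have hlc : PR.leadingCoeff ≠ 0 := leadingCoeff_ne_zero.mpr hPR0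
  set PM : ℝ[X] := PR * C (PR.leadingCoeff⁻¹) with hPM
  have hPMm : PM.Monic := monic_mul_leadingCoeff_inv hPR0
  have hcop : IsCoprime wR PM := by
    rw [isCoprime_iff_aeval_ne_zero_of_isAlgClosed ℝ ℂ]
    intro a
    rw [hPM, map_mul, aeval_C, ← rv_eq_aeval, ← rv_eq_aeval, rv_map, rv_map]
    by_cases ha : a ∈ rts P
    · exact Or.inl (hw a ha).1
    · right
      rw [hroot] at ha
      refine mul_ne_zero ha ?_
      rw [Complex.coe_algebraMap, Complex.ofReal_ne_zero]
      exact inv_ne_zero hlc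
  obtain ⟨A, B, hAB⟩ := hcop
  set u0 : ℝ[X] := (C (1 / 4 : ℝ) * f * A) %ₘ PM with hu0
  have hPMd : PM.degree = (d : WithBot ℕ) := by
    rw [hPM, degree_mul_leadingCoeff_inv _ hPR0, hPR,
      degree_map_eq_of_injective (RingHom.injective_int _), degree_eq_natDegree hP0]
  have hu0d : u0.degree < (d : WithBot ℕ) := by
    have h1 := degree_modByMonic_lt (C (1 / 4 : ℝ) * f * A) hPMm
    rwa [hPMd] at h1
  have hu0n : u0.natDegree < d := by
    by_cases h0 : u0 = 0
    · rw [h0, natDegree_zero]; exact hd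
    · exact (natDegree_lt_iff_degree_lt h0).mpr hu0d
  set U : ℤ[X] := ∑ k ∈ Finset.range d, C (round (u0.coeff k)) * X ^ k with hU
  have hUd : U.natDegree < d := by
    have h1 : U.natDegree ≤ d - 1 := by
      rw [hU]
      refine natDegree_sum_le_of_forall_le _ _ ?_
      intro k hk
      refine (natDegree_C_mul_X_pow_le _ _).trans ?_
      have := Finset.mem_range.mp hk
      omega
    omega
  refine ⟨w * U, ?_, ?_⟩
  · have h1 : (w * U).natDegree < 2 * d + L := by
      have := natDegree_mul_le (p := w) (q := U)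
      omega
    exact lt_of_le_of_lt degree_le_natDegree (by exact_mod_cast h1)
  intro a ha
  have hPa : ev P a = 0 := (hroot a).mp ha
  have h1 : ev (w * U) a = ev w a * ev U a := ev_mul w U a
  have h2 : rv f a = 4 * (ev w a * rv u0 a) := by
    have h := congrArg (fun q => aeval a q) (modByMonic_add_div (C (1 / 4 : ℝ) * f * A) PM)
    have h3 := congrArg (fun q => aeval a q) hAB
    have h4 : aeval a PM = 0 := by
      rw [hPM, map_mul, ← rv_eq_aeval, hPR, rv_map, hPa, zero_mul]
    have h5 : aeval a wR = ev w a := by rw [← rv_eq_aeval, hwR, rv_map]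
    simp only [map_add, map_mul, h4, zero_mul, add_zero, h5, map_one, aeval_C, mul_zero] at h h3
    rw [rv_eq_aeval, rv_eq_aeval, ← hu0] at *
    rw [h]
    have h6 : (algebraMap ℝ ℂ) (1 / 4) = 1 / 4 := by simp
    rw [h6]
    calc aeval a f = aeval a f * (aeval a A * ev w a) := by rw [h3, mul_one]
      _ = 4 * (ev w a * (1 / 4 * aeval a f * aeval a A)) := by ring
  have h3 : rv u0 a - ev U a =
      ∑ k ∈ Finset.range d, ((u0.coeff k - round (u0.coeff k) : ℝ) : ℂ) * a ^ k := by
    have e1 : rv u0 a = ∑ k ∈ Finset.range d, ((u0.coeff k : ℝ) : ℂ) * a ^ k := by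
      unfold rv
      have hn : (u0.map (algebraMap ℝ ℂ)).natDegree < d := by
        rw [natDegree_map]; exact hu0n
      rw [eval_eq_sum_range' hn]
      simp
    have e2 : ev U a = ∑ k ∈ Finset.range d, ((round (u0.coeff k) : ℤ) : ℂ) * a ^ k := by
      rw [ev_eq_aeval, hU, map_sum]
      apply Finset.sum_congr rfl
      intro k _
      simp
    rw [e1, e2, ← Finset.sum_sub_distrib]
    apply Finset.sum_congr rfl
    intro k _
    push_cast
    ring
  have h4 : ‖rv u0 a - ev U a‖ ≤ 1 / 2 * B0 := by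
    rw [h3]
    refine (norm_sum_le _ _).trans ?_
    have e1 : ∀ k ∈ Finset.range d, ‖((u0.coeff k - round (u0.coeff k) : ℝ) : ℂ) * a ^ k‖ ≤
        1 / 2 * ‖a‖ ^ k := by
      intro k _
      rw [norm_mul, norm_pow, Complex.norm_real, Real.norm_eq_abs]
      exact mul_le_mul_of_nonneg_right (abs_sub_round _) (by positivity)
    refine (Finset.sum_le_sum e1).trans ?_
    rw [← Finset.mul_sum]
    apply mul_le_mul_of_nonneg_left _ (by norm_num)
    rw [hB0]
    exact Finset.single_le_sum (f := fun a => ∑ k ∈ Finset.range d, ‖a‖ ^ k)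
      (fun b _ => Finset.sum_nonneg fun k _ => by positivity) ha
  rw [h1, h2, show 4 * (ev w a * rv u0 a) - 4 * (ev w a * ev U a) =
    4 * (ev w a * (rv u0 a - ev U a)) by ring, norm_mul, norm_mul]
  have h5 := (hw a ha).2
  have hexp : 0 < Real.exp (t a) := Real.exp_pos _
  have h6 : ‖(4 : ℂ)‖ = 4 := by norm_num
  rw [h6]
  calc 4 * (‖ev w a‖ * ‖rv u0 a - ev U a‖) ≤ 4 * ((c1 * Real.exp (t a)) * (1 / 2 * B0)) := by
        apply mul_le_mul_of_nonneg_left _ (by norm_num)
        exact mul_le_mul h5 h4 (norm_nonneg _) (by positivity)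
    _ = 2 * c1 * B0 * Real.exp (t a) := by ring
    _ ≤ (2 * c1 * B0 + 1) * Real.exp (t a) := by
        apply mul_le_mul_of_nonneg_right _ hexp.le
        linarith

end Pool.Agent.Work.MP_ce2d68_du.h40
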